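import Pool.Agent.MP_81537f_an.Mg.Main

set_option autoImplicit false

open Complex Polynomial Filter Topology ComplexConjugate

namespace Pool.Agent.Results.MP_81537f_an.NoLongRuns

/-- The Weierstrass primary factor `E_q(w) = (1 - w) exp (w + w^2/2 + ... + w^q/q)`. -/
noncomputable def primary (q : ℕ) (w : ℂ) : ℂ :=
  (1 - w) * Complex.exp (∑ j ∈ Finset.Icc 1 q, w ^ j / (j : ℂ))

/-- `G` has a Hadamard factorisation of genus `g`: `G z = z^m e^{Q z} ∏ E_q(y_n z)`, where the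
non-zero `y_n` are the reciprocals of the non-zero zeros, `q` is the least exponent with
`∑ |y_n|^(q+1) < ∞`, `Q` is a complex polynomial and `g = max q (deg Q)`. -/
def HasGenus (G : ℂ → ℂ) (g : ℕ) : Prop :=
  ∃ (m q : ℕ) (Q : Polynomial ℂ) (y : ℕ → ℂ),
    IsLeast {k : ℕ | Summable fun n => ‖y n‖ ^ (k + 1)} q ∧ g = max q Q.natDegree ∧
    ∀ z : ℂ, G z = z ^ m * Complex.exp (Q.eval z) * ∏' n, primary q (y n * z)

/-- The class `V_{2p}`. -/
def V (p : ℕ) : Set (ℂ → ℂ) :=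
  {f | ∃ (c : ℂ) (a : ℝ) (G : ℂ → ℂ) (g : ℕ), 0 ≤ a ∧ Differentiable ℂ G ∧
    (∀ x : ℝ, (G x).im = 0) ∧ (∀ z : ℂ, G z = 0 → z.im = 0) ∧ HasGenus G g ∧ g ≤ 2 * p + 1 ∧
    ∀ z : ℂ, f z = c * G z * Complex.exp (-(a : ℂ) * z ^ (2 * p + 2))}

open Pool.Agent.MP_81537f_an

lemma summable_succ {y : ℕ → ℝ} {k : ℕ} (hy : Summable fun n => |y n| ^ (k + 1)) :
    Summable fun n => |y n| ^ (k + 1 + 1) := by
  refine Summable.of_norm_bounded_eventually_nat hy ?_
  filter_upwards [hy.tendsto_atTop_zero.eventually (gt_mem_nhds one_pos)] with n hn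
  have h1 : |y n| ≤ 1 := by
    by_contra h
    exact absurd (one_le_pow₀ (n := k + 1) (not_le.1 h).le) (not_le.2 hn)
  rw [Real.norm_of_nonneg (by positivity), pow_succ _ (k + 1)]
  exact mul_le_of_le_one_right (by positivity) h1

lemma raise_succ {y : ℕ → ℝ} {k : ℕ} (hy : Summable fun n => |y n| ^ (k + 1)) :
    ∃ s : ℝ, ∀ z : ℂ, ∏' n, wf k (y n * z) =
      exp (s * z ^ (k + 1)) * ∏' n, wf (k + 1) (y n * z) := by
  have hs : Summable fun n => y n ^ (k + 1) := by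
    refine Summable.of_norm ?_
    simpa [norm_pow] using hy
  refine ⟨-(∑' n, y n ^ (k + 1)) / (k + 1 : ℕ), fun z => ?_⟩
  refine tendsto_nhds_unique (wf_tendsto hy z) ?_
  have h1 : Tendsto (fun N => exp (((-(∑ n ∈ Finset.range N, y n ^ (k + 1)) / (k + 1 : ℕ) : ℝ) : ℂ)
      * z ^ (k + 1))) atTop
      (𝓝 (exp (((-(∑' n, y n ^ (k + 1)) / (k + 1 : ℕ) : ℝ) : ℂ) * z ^ (k + 1)))) := by
    refine (continuous_exp.tendsto _).comp (Tendsto.mul_const _ ?_)
    exact (continuous_ofReal.tendsto _).comp (hs.hasSum.tendsto_sum_nat.neg.div_const _)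
  refine (h1.mul (wf_tendsto (summable_succ hy) z)).congr fun N => ?_
  have h2 : ∀ n, wf (k + 1) (y n * z) =
      wf k (y n * z) * exp ((y n * z) ^ (k + 1) / (k + 1 : ℕ)) := by
    intro n
    rw [wf, wf, Finset.sum_Icc_succ_top (by omega), exp_add, mul_assoc]
  simp only [h2]
  rw [Finset.prod_mul_distrib, ← exp_sum, mul_left_comm, ← exp_add]
  convert mul_one _
  convert exp_zero
  push_cast
  simp only [mul_pow]
  rw [← Finset.sum_div, ← Finset.sum_mul]
  ring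

lemma raise {y : ℕ → ℝ} {q : ℕ} (hy : Summable fun n => |y n| ^ (q + 1)) (N : ℕ) (hN : q ≤ N) :
    (Summable fun n => |y n| ^ (N + 1)) ∧ ∃ γ : ℝ[X], γ.natDegree ≤ N ∧ γ.eval 0 = 0 ∧
      ∀ z : ℂ, ∏' n, wf q (y n * z) = exp (aeval z γ) * ∏' n, wf N (y n * z) := by
  induction N, hN using Nat.le_induction with
  | base => exact ⟨hy, 0, by simp, by simp, fun z => by simp⟩
  | succ k _ ih =>
    obtain ⟨h1, γ, h2, h3, h4⟩ := ih
    obtain ⟨s, hs⟩ := raise_succ h1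
    refine ⟨summable_succ h1, γ + C s * X ^ (k + 1), ?_, by simp [h3], fun z => ?_⟩
    · exact natDegree_add_le_of_degree_le (by omega) (natDegree_C_mul_X_pow_le _ _)
    · rw [h4, hs, map_add, exp_add, mul_assoc]
      simp

lemma real_exponent (Q : ℂ[X]) (h : ∀ᶠ x : ℝ in 𝓝 0, (exp (Q.eval (x : ℂ))).im = 0) :
    ∃ β : ℝ[X], β.natDegree ≤ Q.natDegree ∧ β.eval 0 = 0 ∧
      ∀ z : ℂ, Q.eval z = Q.eval 0 + aeval z β := by
  set R : ℂ[X] := Q - Q.map (starRingEnd ℂ) with hR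
  have h1 : ∀ᶠ x : ℝ in 𝓝 0, exp (R.eval (x : ℂ)) = 1 := by
    filter_upwards [h] with x hx
    have e : (Q.map (starRingEnd ℂ)).eval (x : ℂ) = conj (Q.eval (x : ℂ)) := by
      conv_lhs => rw [← conj_ofReal x]
      rw [eval_map, eval₂_at_apply]
    rw [hR, eval_sub, exp_sub, e, exp_conj, conj_eq_iff_im.2 hx, div_self (exp_ne_zero _)]
  have h2 : ∀ᶠ x : ℝ in 𝓝 0, (derivative R).eval (x : ℂ) = 0 := by
    filter_upwards [h1.eventually_nhds] with x hx
    have d1 : HasDerivAt (fun t : ℝ => exp (R.eval (t : ℂ)))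
        (exp (R.eval (x : ℂ)) * (derivative R).eval (x : ℂ)) x :=
      ((R.hasDerivAt (x : ℂ)).cexp).comp_ofReal
    have d2 : HasDerivAt (fun t : ℝ => exp (R.eval (t : ℂ))) 0 x :=
      (hasDerivAt_const x (1 : ℂ)).congr_of_eventuallyEq hx
    exact (mul_eq_zero.1 (d1.unique d2)).resolve_left (exp_ne_zero _)
  have h3 : derivative R = 0 := by
    refine eq_zero_of_infinite_isRoot _ ?_
    exact ((infinite_of_mem_nhds (0 : ℝ) h2).image ofReal_injective.injOn).mono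
      (by rintro _ ⟨x, hx, rfl⟩; exact hx)
  have h4 : Q - C (Q.coeff 0) ∈ lifts (algebraMap ℝ ℂ) := by
    rw [lifts_iff_coeff_lifts]
    intro n
    rcases n with _ | n
    · exact ⟨0, by simp⟩
    · have e := congrArg (fun P => P.coeff n) h3
      simp only [coeff_derivative, coeff_zero, mul_eq_zero, hR, coeff_sub, coeff_map] at e
      have e2 : conj (Q.coeff (n + 1)) = Q.coeff (n + 1) :=
        (sub_eq_zero.1 (e.resolve_right (Nat.cast_add_one_ne_zero n))).symm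
      refine ⟨(Q.coeff (n + 1)).re, ?_⟩
      rw [coeff_sub, coeff_C_succ, sub_zero, coe_algebraMap, conj_eq_iff_re.1 e2]
  obtain ⟨β, hβ, hd⟩ := exists_degree_eq_of_mem_lifts h4
  have h5 : ∀ z : ℂ, aeval z β = Q.eval z - Q.eval 0 := by
    intro z
    rw [aeval_def, ← eval_map, hβ, eval_sub, eval_C, coeff_zero_eq_eval_zero]
  refine ⟨β, ?_, ?_, fun z => by rw [h5]; ring⟩
  · rw [natDegree_eq_of_degree_eq hd, natDegree_sub_C]
  · have e := aeval_algebraMap_apply_eq_algebraMap_eval (A := ℂ) (0 : ℝ) β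
    rw [map_zero, h5, sub_self, coe_algebraMap] at e
    exact_mod_cast e.symm

lemma poly_mem (p d : ℕ) (y : ℕ → ℝ) (hy : ∀ n, d ≤ n → y n = 0) (f : ℂ → ℂ)
    (hf : ∀ z, f z = ∏ n ∈ Finset.range d, (1 - y n * z)) : f ∈ V p := by
  refine ⟨1, 0, f, 0, le_rfl, ?_, fun x => ?_, fun z hz => ?_,
    ⟨0, 0, 0, fun n => y n, ⟨?_, fun _ _ => Nat.zero_le _⟩, by simp, fun z => ?_⟩,
    Nat.zero_le _, fun z => by simp⟩
  · rw [funext hf]
    fun_prop
  · rw [hf, ← ofReal_im (∏ n ∈ Finset.range d, (1 - y n * x))]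
    push_cast
    rfl
  · rw [hf, Finset.prod_eq_zero_iff] at hz
    obtain ⟨n, -, hn⟩ := hz
    have h1 := congrArg im hn
    have h2 := congrArg re hn
    simp only [sub_im, one_im, mul_im, ofReal_re, ofReal_im, zero_mul, add_zero, zero_sub, zero_im,
      neg_eq_zero, mul_eq_zero] at h1
    refine h1.resolve_left fun h => ?_
    simp [h] at h2
  · refine summable_of_ne_finset_zero (s := Finset.range d) fun k hk => ?_
    rw [Finset.mem_range, not_lt] at hk
    simp [hy k hk]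
  · rw [tprod_eq_prod (s := Finset.range d), hf]
    · simp [primary]
    · intro k hk
      rw [Finset.mem_range, not_lt] at hk
      simp [hy k hk, primary]

/-- For `p ≥ 1`, a function `f ∈ U_{2p} = V_{2p} \ V_{2p-2}` with `f 0 = 1` has no run of `2p+2`
consecutive zero Taylor coefficients. -/
theorem result (p : ℕ) (hp : 1 ≤ p) (f : ℂ → ℂ) (hf : f ∈ V p \ V (p - 1)) (h0 : f 0 = 1) :
    ¬ ∃ n : ℕ, 1 ≤ n ∧ ∀ j : ℕ, j < 2 * p + 2 →
      iteratedDeriv (n + j) f 0 / ((n + j).factorial : ℂ) = 0 := by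
  obtain ⟨⟨c, a, G, g, ha, -, hre, hz, ⟨m, q, Q, y, ⟨hy, -⟩, rfl, hG⟩, hg, hf⟩, hnot⟩ := hf
  rintro ⟨n, -, hn⟩
  have hG' : ∀ z : ℂ, G z = z ^ m * exp (Q.eval z) * ∏' n, wf q (y n * z) := hG
  have h1 := hf 0
  rw [h0, hG'] at h1
  simp only [mul_zero, wf_zero, tprod_one, mul_one] at h1
  rw [zero_pow (by omega : 2 * p + 2 ≠ 0), mul_zero, exp_zero, mul_one] at h1
  have hm : m = 0 := by
    by_contra hm
    rw [zero_pow hm] at h1
    simp at h1
  subst hm
  simp only [pow_zero, one_mul] at h1 hG'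
  have hyr : ∀ k, ((y k).re : ℂ) = y k := by
    intro k
    by_cases hk : y k = 0
    · simp [hk]
    have h2 : ((y k)⁻¹).im = 0 := by
      refine hz _ ?_
      rw [hG', tprod_of_exists_eq_zero ⟨k, by rw [mul_inv_cancel₀ hk, wf, sub_self, zero_mul]⟩,
        mul_zero]
    rw [← conj_eq_iff_re, ← inv_inj, ← map_inv₀, conj_eq_iff_im, h2]
  obtain ⟨y, rfl⟩ : ∃ u : ℕ → ℝ, y = fun k => (u k : ℂ) := ⟨_, funext fun k => (hyr k).symm⟩
  have hy' : Summable fun n => |y n| ^ (q + 1) := by simpa using hy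
  obtain ⟨β, hβ1, hβ2, hβ3⟩ := real_exponent Q (by
    have hc : Continuous fun x : ℝ => ∏' n, wf q (y n * (x : ℂ)) :=
      (wf_differentiable hy').continuous.comp continuous_ofReal
    have h2 : ∀ᶠ x : ℝ in 𝓝 0, ∏' n, wf q (y n * (x : ℂ)) ≠ 0 :=
      hc.continuousAt.eventually_ne (by simp [wf_zero])
    filter_upwards [h2] with x hx
    have h3 := wf_conj hy' (x : ℂ)
    rw [conj_ofReal] at h3
    have h4 := conj_eq_iff_im.2 (hre x)
    rw [hG', map_mul, ← h3] at h4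
    exact conj_eq_iff_im.1 (mul_right_cancel₀ hx h4))
  obtain ⟨hs, γ, hγ1, hγ2, hγ3⟩ := raise hy' (2 * p + 1) ((le_max_left _ _).trans hg)
  obtain ⟨d, u, hu0, hu⟩ := main p f a (β + γ) y ha
    (natDegree_add_le_of_degree_le (hβ1.trans ((le_max_right _ _).trans hg)) hγ1)
    (by rw [eval_add, hβ2, hγ2, add_zero]) hs (by
      intro z
      rw [hf, hG', hγ3, hβ3 z, map_add, exp_add, exp_add, exp_add]
      linear_combination (-(exp (aeval z β) * exp (aeval z γ) *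
        (∏' n, wf (2 * p + 1) (y n * z)) * exp (-(a : ℂ) * z ^ (2 * p + 2)))) * h1) n
    (fun j hj => (div_eq_zero_iff.1 (hn j hj)).resolve_right
      (Nat.cast_ne_zero.2 (Nat.factorial_ne_zero _)))
  exact hnot (poly_mem _ d u hu0 f hu)

end Pool.Agent.Results.MP_81537f_an.NoLongRuns
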